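import Mathlib

namespace Pool.Agent.Results.MP_f8a8cb_gt.LocallyWeaklyPseudocompact

open Set Topology Filter TopologicalSpace

universe u

/-- `X` is pseudocompact: every continuous real-valued function on `X` is bounded. -/
def Pseudocompact (X : Type u) [TopologicalSpace X] : Prop :=
  ∀ f : X → ℝ, Continuous f → ∃ M : ℝ, ∀ x, |f x| ≤ M

/-- `X` is weakly pseudocompact: `X` is `G_δ`-dense in some Hausdorff compactification. -/
def WeaklyPseudocompact (X : Type u) [TopologicalSpace X] : Prop :=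
  ∃ (K : Type u) (_ : TopologicalSpace K) (i : X → K), CompactSpace K ∧ T2Space K ∧
    IsEmbedding i ∧ DenseRange i ∧ ∀ S : Set K, IsGδ S → S.Nonempty → (S ∩ range i).Nonempty

section density

variable {H : Type u} [Group H] [TopologicalSpace H] [IsTopologicalGroup H]
  (G : Subgroup H) {U : Set G}
  {K : Type u} [TopologicalSpace K] [CompactSpace K] [T2Space K]
  {i : closure U → K} (hi : IsEmbedding i)

omit [IsTopologicalGroup H] in
include hi in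
/-- Refinement step. -/
theorem refine_step {R : Set H} (hR : IsOpen R) (hRn : ∃ g : G, (g : H) ∈ R)
    (hRU : ∀ g : G, (g : H) ∈ R → g ∈ U) {A : Set K} (hA : IsOpen A)
    (hRA : ∀ g : closure U, ((g : G) : H) ∈ R → i g ∈ A) :
    ∃ A' : Set K, IsOpen A' ∧ closure A' ⊆ A ∧ (∀ g : closure U, i g ∈ A' → ((g : G) : H) ∈ R) ∧
      ∃ R' ⊆ R, IsOpen R' ∧ (∃ g : G, (g : H) ∈ R') ∧
        (∀ g : closure U, ((g : G) : H) ∈ R' → i g ∈ A') ∧ (closure A').Nonempty := by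
  obtain ⟨g0, hg0⟩ := hRn
  let x0 : closure U := ⟨g0, subset_closure (hRU g0 hg0)⟩
  have ho : IsOpen {g : closure U | ((g : G) : H) ∈ R} := hR.preimage (by fun_prop)
  obtain ⟨O, hO, hOR⟩ := hi.isOpen_iff.1 ho
  have hx0 : i x0 ∈ O ∩ A := by
    refine ⟨?_, hRA x0 hg0⟩
    have : x0 ∈ i ⁻¹' O := by rw [hOR]; exact hg0
    exact this
  obtain ⟨C, hC, hCc, hCO⟩ := exists_mem_nhds_isClosed_subset ((hO.inter hA).mem_nhds hx0)
  have hcl : closure (interior C) ⊆ O ∩ A := (closure_minimal interior_subset hCc).trans hCO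
  have hsub : ∀ g : closure U, i g ∈ interior C → ((g : G) : H) ∈ R := by
    intro g hg
    have h1 : g ∈ i ⁻¹' O := (hcl (subset_closure hg)).1
    rw [hOR] at h1
    exact h1
  have ho2 : IsOpen (i ⁻¹' interior C) := isOpen_interior.preimage hi.continuous
  obtain ⟨T, hT, hTC⟩ := isOpen_induced_iff.1 ho2
  obtain ⟨T', hT', hTT'⟩ := isOpen_induced_iff.1 hT
  refine ⟨interior C, isOpen_interior, hcl.trans inter_subset_right, hsub,
    T' ∩ R, inter_subset_right, hT'.inter hR, ⟨g0, ?_, hg0⟩, ?_, ?_⟩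
  · have h1 : x0 ∈ i ⁻¹' interior C := mem_interior_iff_mem_nhds.2 hC
    rw [← hTC] at h1
    have h2 : g0 ∈ T := h1
    rw [← hTT'] at h2
    exact h2
  · rintro g ⟨hg1, hg2⟩
    have h2 : (g : G) ∈ T := by rw [← hTT']; exact hg1
    have h3 : g ∈ (Subtype.val : closure U → G) ⁻¹' T := h2
    rw [hTC] at h3
    exact h3
  · exact ⟨i x0, subset_closure (mem_interior_iff_mem_nhds.2 hC)⟩

include hi in
/-- The density lemma, for `p` close to the identity. -/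
theorem density_aux
    (hG : ∀ S : Set K, IsGδ S → S.Nonempty → (S ∩ range i).Nonempty)
    {U0 : Set H} (hU0 : IsOpen U0) (h1U0 : (1 : H) ∈ U0) (hUU0 : ∀ g : G, (g : H) ∈ U0 → g ∈ U)
    (p : H) (hp : p ∈ closure (G : Set H)) (hpU : p ∈ U0) (W : ℕ → Set H)
    (hW : ∀ n, W n ∈ 𝓝 (1 : H)) : ∃ g : G, ∀ n, p⁻¹ * g ∈ W n := by
  classical
  have hpc : p ∈ G.topologicalClosure := hp
  have hmem : ∀ {R : Set H}, IsOpen R → ∀ y ∈ G.topologicalClosure, y ∈ R →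
      ∃ g : G, (g : H) ∈ R := by
    intro R hR y hy hyR
    have hy' : y ∈ closure (G : Set H) := hy
    obtain ⟨z, hz, hzG⟩ := mem_closure_iff.1 hy' R hR hyR
    exact ⟨⟨z, hzG⟩, hz⟩
  have hle : ∀ g : G, (g : H) ∈ G.topologicalClosure := fun g =>
    G.le_topologicalClosure g.2
  let S := (Set K × Set K) × (Set H × Set H)
  let Good : S → Prop := fun s =>
    IsOpen s.1.1 ∧ IsOpen s.1.2 ∧ IsOpen s.2.1 ∧ IsOpen s.2.2 ∧
    (∃ g : G, (g : H) ∈ s.2.2) ∧ (∀ g : G, (g : H) ∈ s.2.1 → g ∈ U) ∧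
    (∀ g : G, (g : H) ∈ s.2.2 → g ∈ U) ∧
    (∀ g : closure U, ((g : G) : H) ∈ s.2.1 → i g ∈ s.1.1) ∧
    (∀ g : closure U, ((g : G) : H) ∈ s.2.2 → i g ∈ s.1.2) ∧
    (∀ q ∈ s.2.2, p * q ∈ s.2.1) ∧ (closure s.1.1).Nonempty ∧ (closure s.1.2).Nonempty
  have hnext : ∀ n, ∀ s : S, Good s → ∃ s' : S, Good s' ∧
      closure s'.1.1 ⊆ s.1.1 ∧ closure s'.1.2 ⊆ s.1.2 ∧
      ∀ a b : closure U, i a ∈ s'.1.1 → i b ∈ s'.1.2 →
        p⁻¹ * (((a : G) : H) * ((b : G) : H)⁻¹) ∈ W n := by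
    rintro n ⟨⟨A, B⟩, ⟨P, Q⟩⟩ ⟨hA, hB, hP, hQ, ⟨q0, hq0⟩, hPU, hQU, hPA, hQB, hPQ, -, -⟩
    simp only at hA hB hP hQ hq0 hPU hQU hPA hQB hPQ
    obtain ⟨V, hVo, h1V, hVV⟩ : ∃ V : Set H, IsOpen V ∧ (1 : H) ∈ V ∧
        ∀ x ∈ V, ∀ y ∈ V, x * y⁻¹ ∈ W n := by
      have h1 : (fun z : H × H => z.1 * z.2⁻¹) ⁻¹' (W n) ∈ 𝓝 ((1 : H), (1 : H)) := by
        have : ContinuousAt (fun z : H × H => z.1 * z.2⁻¹) (1, 1) := by fun_prop
        exact this.preimage_mem_nhds (by simpa using hW n)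
      rw [nhds_prod_eq, mem_prod_iff] at h1
      obtain ⟨t1, ht1, t2, ht2, h12⟩ := h1
      obtain ⟨V, hVs, hVo, h1V⟩ := mem_nhds_iff.1 (inter_mem ht1 ht2)
      exact ⟨V, hVo, h1V, fun x hx y hy => h12 (mk_mem_prod (hVs hx).1 (hVs hy).2)⟩
    -- Q' and P'
    let Q' : Set H := Q ∩ {q | q * (q0 : H)⁻¹ ∈ V}
    have hQ'o : IsOpen Q' := hQ.inter (hVo.preimage (by fun_prop))
    let P' : Set H := P ∩ {h | p⁻¹ * h ∈ Q'}
    have hP'o : IsOpen P' := hP.inter (hQ'o.preimage (by fun_prop))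
    have hP'n : ∃ g : G, (g : H) ∈ P' := by
      refine hmem hP'o (p * q0) (mul_mem hpc (hle q0)) ⟨hPQ _ hq0, ?_⟩
      show p⁻¹ * (p * q0) ∈ Q'
      rw [inv_mul_cancel_left]
      exact ⟨hq0, by simpa using h1V⟩
    obtain ⟨A', hA'o, hA'A, hA'P, P2, hP2, hP2o, ⟨x0, hx0⟩, hP2A, hA'n⟩ :=
      refine_step G hi hP'o hP'n (fun g hg => hPU g hg.1) hA (fun g hg => hPA g hg.1)
    let Q1 : Set H := Q' ∩ {q | p * q ∈ P2}
    have hQ1o : IsOpen Q1 := hQ'o.inter (hP2o.preimage (by fun_prop))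
    have hQ1n : ∃ g : G, (g : H) ∈ Q1 := by
      refine hmem hQ1o (p⁻¹ * x0) (mul_mem (inv_mem hpc) (hle x0)) ⟨(hP2 hx0).2, ?_⟩
      show p * (p⁻¹ * x0) ∈ P2
      rw [mul_inv_cancel_left]
      exact hx0
    obtain ⟨B', hB'o, hB'B, hB'Q, Q2, hQ2, hQ2o, hQ2n, hQ2B, hB'n⟩ :=
      refine_step G hi hQ1o hQ1n (fun g hg => hQU g hg.1.1) hB (fun g hg => hQB g hg.1.1)
    refine ⟨⟨⟨A', B'⟩, ⟨P2, Q2⟩⟩, ⟨hA'o, hB'o, hP2o, hQ2o, hQ2n,
      fun g hg => hPU g (hP2 hg).1, fun g hg => hQU g (hQ2 hg).1.1, hP2A, hQ2B,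
      fun q hq => (hQ2 hq).2, hA'n, hB'n⟩, hA'A, hB'B, ?_⟩
    intro a b ha hb
    have h1 : p⁻¹ * ((a : G) : H) ∈ Q' := (hA'P a ha).2
    have h2 : ((b : G) : H) ∈ Q' := (hB'Q b hb).1
    have h3 := hVV _ h1.2 _ h2.2
    simpa [mul_assoc] using h3
  have hinit : ∃ s : S, Good s := by
    let Q : Set H := U0 ∩ {q | p * q ∈ U0}
    have hQ : IsOpen Q := hU0.inter (hU0.preimage (by fun_prop))
    have h1Q : (1 : H) ∈ Q := ⟨h1U0, by simpa using hpU⟩
    refine ⟨⟨⟨univ, univ⟩, ⟨U0, Q⟩⟩, isOpen_univ, isOpen_univ, hU0, hQ, ⟨1, by simpa using h1Q⟩,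
      hUU0, fun g hg => hUU0 g hg.1, fun _ _ => mem_univ _, fun _ _ => mem_univ _,
      fun q hq => hq.2, ?_, ?_⟩ <;>
    · refine ⟨i ⟨1, subset_closure (hUU0 1 (by simpa using h1U0))⟩, subset_closure (mem_univ _)⟩
  obtain ⟨s0, hs0⟩ := hinit
  choose! nxt hnxt using hnext
  let s : ℕ → S := fun n => Nat.rec s0 (fun n t => nxt n t) n
  have hs : ∀ n, Good (s n) := by
    intro n
    induction n with
    | zero => exact hs0
    | succ n ih => exact (hnxt n (s n) ih).1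
  have hex : ∀ (F : ℕ → Set K), (∀ n, IsOpen (F n)) → (∀ n, closure (F (n + 1)) ⊆ F n) →
      (∀ n, (closure (F n)).Nonempty) → ∃ x : closure U, ∀ n, i x ∈ F n := by
    intro F hF hFF hFn
    have h1 : (⋂ n, closure (F n)).Nonempty := by
      apply IsCompact.nonempty_iInter_of_sequence_nonempty_isCompact_isClosed
      · intro n
        exact (hFF n).trans subset_closure
      · exact hFn
      · exact isClosed_closure.isCompact
      · intro n; exact isClosed_closure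
    have h2 : (⋂ n, F n).Nonempty := by
      obtain ⟨z, hz⟩ := h1
      rw [mem_iInter] at hz
      exact ⟨z, mem_iInter.2 fun n => hFF n (hz (n + 1))⟩
    obtain ⟨_, hx, ⟨x, rfl⟩⟩ := hG _ (IsGδ.iInter_of_isOpen hF) h2
    exact ⟨x, fun n => mem_iInter.1 hx n⟩
  obtain ⟨a, ha⟩ := hex (fun n => (s n).1.1) (fun n => (hs n).1)
    (fun n => (hnxt n (s n) (hs n)).2.1) (fun n => (hs n).2.2.2.2.2.2.2.2.2.2.1)
  obtain ⟨b, hb⟩ := hex (fun n => (s n).1.2) (fun n => (hs n).2.1)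
    (fun n => (hnxt n (s n) (hs n)).2.2.1) (fun n => (hs n).2.2.2.2.2.2.2.2.2.2.2)
  refine ⟨(a : G) * (b : G)⁻¹, fun n => ?_⟩
  exact (hnxt n (s n) (hs n)).2.2.2 a b (ha (n + 1)) (hb (n + 1))

end density

/-- `G` is `G_δ`-dense in its closure. -/
theorem density {H : Type u} [Group H] [TopologicalSpace H] [IsTopologicalGroup H]
    (G : Subgroup H) {U : Set G} (hU : IsOpen U) (h1 : 1 ∈ U)
    (hwp : WeaklyPseudocompact (closure U)) (p : H) (hp : p ∈ closure (G : Set H))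
    (W : ℕ → Set H) (hW : ∀ n, W n ∈ 𝓝 (1 : H)) : ∃ g : G, ∀ n, p⁻¹ * g ∈ W n := by
  obtain ⟨K, _, i, _, _, hi, -, hG⟩ := hwp
  obtain ⟨U0, hU0, rfl⟩ := isOpen_induced_iff.1 hU
  have h1U0 : (1 : H) ∈ U0 := h1
  obtain ⟨g0, hg0⟩ : ∃ g0 : G, (g0 : H)⁻¹ * p ∈ U0 := by
    have ho : IsOpen {h : H | h⁻¹ * p ∈ U0} := hU0.preimage (by fun_prop)
    obtain ⟨z, hz, hzG⟩ := mem_closure_iff.1 hp _ ho (by
      show p⁻¹ * p ∈ U0
      simpa using h1U0)
    exact ⟨⟨z, hzG⟩, hz⟩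
  have hp' : (g0 : H)⁻¹ * p ∈ closure (G : Set H) := by
    have h2 : (g0 : H)⁻¹ * p ∈ G.topologicalClosure :=
      mul_mem (inv_mem (G.le_topologicalClosure g0.2)) hp
    exact h2
  obtain ⟨g, hg⟩ := density_aux G hi hG hU0 h1U0 (fun g hg => hg) _ hp' hg0 W hW
  refine ⟨g0 * g, fun n => ?_⟩
  have := hg n
  simpa [mul_assoc] using this

/-- Let `G` be a subgroup of a locally compact group `H`.  If some open neighbourhood `U` of the
identity of `G` has weakly pseudocompact closure in `G`, then some open neighbourhood `V` of the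
identity in `G` has pseudocompact closure in `G`. -/
theorem result {H : Type u} [Group H] [TopologicalSpace H] [IsTopologicalGroup H] [T2Space H]
    [LocallyCompactSpace H] (G : Subgroup H)
    (hU : ∃ U : Set G, IsOpen U ∧ 1 ∈ U ∧ WeaklyPseudocompact (closure U)) :
    ∃ V : Set G, IsOpen V ∧ 1 ∈ V ∧ Pseudocompact (closure V) := by
  classical
  obtain ⟨U, hUo, h1U, hwp⟩ := hU
  obtain ⟨C, hC, hC1⟩ := exists_compact_mem_nhds (1 : H)
  let V0 : Set H := interior C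
  have h1V0 : (1 : H) ∈ V0 := mem_interior_iff_mem_nhds.2 hC1
  have hV0 : IsOpen V0 := isOpen_interior
  obtain ⟨V, hV⟩ : ∃ V : Set G, V = {g : G | (g : H) ∈ V0} := ⟨_, rfl⟩
  have hVo : IsOpen V := by rw [hV]; exact hV0.preimage continuous_subtype_val
  refine ⟨V, hVo, by rw [hV]; exact h1V0, ?_⟩
  intro f hf
  by_contra hcon
  push Not at hcon
  -- the open sets
  have hTo : ∀ n : ℕ, ∃ O : Set H, IsOpen O ∧ ∀ x : closure V, ((x : G) : H) ∈ O ↔ (n : ℝ) < |f x| := by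
    intro n
    have ho : IsOpen {x : closure V | (n : ℝ) < |f x|} := isOpen_lt continuous_const hf.abs
    obtain ⟨T, hT, hT'⟩ := isOpen_induced_iff.1 ho
    obtain ⟨O, hO, hO'⟩ := isOpen_induced_iff.1 hT
    refine ⟨O, hO, fun x => ?_⟩
    have h1 : x ∈ {x : closure V | (n : ℝ) < |f x|} ↔ (x : G) ∈ T := by
      rw [← hT']; rfl
    have h2 : (x : G) ∈ T ↔ ((x : G) : H) ∈ O := by
      rw [← hO']; rfl
    exact h2.symm.trans h1.symm
  choose O hO hOf using hTo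
  have hx : ∀ n : ℕ, ∃ g : G, (g : H) ∈ V0 ∧ (g : H) ∈ O n := by
    intro n
    obtain ⟨x, hx⟩ := hcon n
    have h1 : ((x : G) : H) ∈ O n := (hOf n x).2 hx
    obtain ⟨y, hy, hyV⟩ := mem_closure_iff.1 x.2 _ ((hO n).preimage continuous_subtype_val) h1
    rw [hV] at hyV
    exact ⟨y, hyV, hy⟩
  choose g hgV hgO using hx
  -- cluster point
  obtain ⟨p, -, hp⟩ := hC.exists_mapClusterPt (f := atTop) (u := fun n => (g n : H))
    (by
      rw [le_principal_iff, mem_map]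
      exact univ_mem' fun n => show (g n : H) ∈ C from interior_subset (hgV n))
  have hfreq : ∀ R : Set H, IsOpen R → p ∈ R → ∀ N : ℕ, ∃ n ≥ N, (g n : H) ∈ R := by
    intro R hR hpR N
    have := (mapClusterPt_iff_frequently.1 hp) R (hR.mem_nhds hpR)
    exact (frequently_atTop.1 this) N
  have hpG : p ∈ closure (G : Set H) := by
    rw [mem_closure_iff]
    intro R hR hpR
    obtain ⟨n, -, hn⟩ := hfreq R hR hpR 0
    exact ⟨_, hn, (g n).2⟩
  obtain ⟨z, hz⟩ := density G hUo h1U hwp p hpG (fun n => {w : H | (g n : H) * w ∈ O n ∩ V0})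
    (by
      intro n
      have hop : IsOpen {w : H | (g n : H) * w ∈ O n ∩ V0} :=
        ((hO n).inter hV0).preimage (by fun_prop)
      exact hop.mem_nhds (by
        show (g n : H) * 1 ∈ O n ∩ V0
        rw [mul_one]
        exact ⟨hgO n, hgV n⟩))
  have hwG : p⁻¹ * (z : H) ∈ G.topologicalClosure :=
    mul_mem (inv_mem hpG) (G.le_topologicalClosure z.2)
  have hmain : ∀ R : Set H, IsOpen R → (z : H) ∈ R → ∀ N : ℕ, ∃ y : G, (y : H) ∈ R ∧
      y ∈ V ∧ ∃ n ≥ N, (y : H) ∈ O n := by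
    intro R hR hzR N
    have ho : IsOpen {h : H | h * (p⁻¹ * z) ∈ R} := hR.preimage (by fun_prop)
    obtain ⟨n, hn, hnR⟩ := hfreq _ ho (by
      show p * (p⁻¹ * z) ∈ R
      rw [mul_inv_cancel_left]; exact hzR) N
    have h1 : (g n : H) * (p⁻¹ * z) ∈ O n ∩ V0 := hz n
    have h2 : (g n : H) * (p⁻¹ * z) ∈ closure (G : Set H) :=
      mul_mem (G.le_topologicalClosure (g n).2) hwG
    obtain ⟨y, hy, hyG⟩ := mem_closure_iff.1 h2 (R ∩ (O n ∩ V0)) (hR.inter ((hO n).inter hV0))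
      ⟨hnR, h1⟩
    exact ⟨⟨y, hyG⟩, hy.1, by rw [hV]; exact hy.2.2, n, hn, hy.2.1⟩
  have hzV : z ∈ closure V := by
    rw [mem_closure_iff]
    rintro T hT hzT
    obtain ⟨R, hR, rfl⟩ := isOpen_induced_iff.1 hT
    obtain ⟨y, hy, hyV, -⟩ := hmain R hR hzT 0
    exact ⟨y, hy, hyV⟩
  -- `f` is locally bounded at `z`
  obtain ⟨M, hM⟩ := exists_nat_gt (|f ⟨z, hzV⟩|)
  have ho : IsOpen {x : closure V | |f x| < (M : ℝ)} := isOpen_lt hf.abs continuous_const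
  obtain ⟨T, hT, hT'⟩ := isOpen_induced_iff.1 ho
  obtain ⟨R, hR, rfl⟩ := isOpen_induced_iff.1 hT
  have hzR : (z : H) ∈ R := by
    have h1 : (⟨z, hzV⟩ : closure V) ∈ {x : closure V | |f x| < (M : ℝ)} := hM
    rw [← hT'] at h1
    exact h1
  obtain ⟨y, hyR, hyV, n, hn, hyO⟩ := hmain R hR hzR M
  have h1 : (⟨y, subset_closure hyV⟩ : closure V) ∈ {x : closure V | |f x| < (M : ℝ)} := by
    rw [← hT']
    exact hyR
  have h2 : (n : ℝ) < |f ⟨y, subset_closure hyV⟩| := (hOf n ⟨y, subset_closure hyV⟩).1 hyO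
  have h3 : |f ⟨y, subset_closure hyV⟩| < (M : ℝ) := h1
  have h4 : (M : ℝ) ≤ n := by exact_mod_cast hn
  linarith

end Pool.Agent.Results.MP_f8a8cb_gt.LocallyWeaklyPseudocompact
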